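import Pool.Agent.ART.Main

namespace Pool.Agent.Results.MP_e56f3d_co.FullAnswer

open Pool.Agent.ART

/-- The anti-Ramsey number of `t + 2` vertex-disjoint triangles for all large `n` and all `t` with
`3 t + 6 ≤ n`. -/
theorem result : ∃ N₀ : ℕ, ∀ n t : ℕ, N₀ ≤ n → 3 * t + 6 ≤ n →
    ((t : ℝ) ≤ (2 * n - 6) / 9 →
      ar n (sK3 (t + 2)) = t.choose 2 + t * (n - t) + (n - t) ^ 2 / 4 + 2) ∧
    ((2 * n - 6) / 9 ≤ (t : ℝ) → (t : ℝ) ≤ (n - 3 - √(2 * n - 3)) / 4 →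
      ar n (sK3 (t + 2)) = (2 * t + 1).choose 2 + n ^ 2 / 4 + 2) ∧
    ((n - 3 - √(2 * n - 3)) / 4 ≤ (t : ℝ) →
      (t : ℝ) ≤ (5 * n - 20 + √(3 * n ^ 2 - 2 * n + 4)) / 22 →
      ar n (sK3 (t + 2)) = (t + 1) * (2 * t + 1) + (2 * t + 2) * (n - 2 * t - 2) + 2) ∧
    ((5 * n - 20 + √(3 * n ^ 2 - 2 * n + 4)) / 22 ≤ (t : ℝ) →
      (t : ℝ) ≤ (2 * n - 3 - √(16 * n - 7)) / 6 →
      ar n (sK3 (t + 2)) = (6 * t + 6 - n).choose 2 + (3 * t + 3) * (n - 3 * t - 3) + 2) ∧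
    ((2 * n - 3 - √(16 * n - 7)) / 6 ≤ (t : ℝ) →
      ar n (sK3 (t + 2)) = (3 * t + 5).choose 2 + (n - 3 * t - 6) + 2) :=
  main_cases main

end Pool.Agent.Results.MP_e56f3d_co.FullAnswer
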